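import Mathlib

set_option autoImplicit false

namespace Pool.Agent.Helper920.Family

open Set

/-- The relation `X ~ Y`: outside a finite set they agree, and inside it they have the same size. -/
def Rel {α : Type} [DecidableEq α] (X Y : Set α) : Prop :=
  ∃ F : Finset α, (∀ a, a ∉ F → (a ∈ X ↔ a ∈ Y)) ∧ (X ∩ F).ncard = (Y ∩ F).ncard

section general
variable {α : Type} [DecidableEq α]

lemma ncard_split (X : Set α) (F G : Finset α) (h : F ⊆ G) :
    (X ∩ G).ncard = (X ∩ F).ncard + (X ∩ (G \ F : Finset α)).ncard := by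
  have h1 : X ∩ (G : Set α) = (X ∩ F) ∪ (X ∩ (G \ F : Finset α)) := by
    ext a
    simp only [mem_inter_iff, Finset.mem_coe, mem_union, Finset.coe_sdiff, mem_sdiff]
    constructor
    · rintro ⟨h1, h2⟩
      by_cases h3 : a ∈ F
      · exact Or.inl ⟨h1, h3⟩
      · exact Or.inr ⟨h1, h2, h3⟩
    · rintro (⟨h1, h2⟩ | ⟨h1, h2, _⟩)
      · exact ⟨h1, h h2⟩
      · exact ⟨h1, h2⟩
  rw [h1]
  apply Set.ncard_union_eq
  · rw [Set.disjoint_left]
    rintro a ⟨_, h2⟩ ⟨_, h4⟩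
    rw [Finset.coe_sdiff] at h4
    exact h4.2 h2
  · exact (F.finite_toSet).inter_of_right X
  · exact ((G \ F).finite_toSet).inter_of_right X

lemma rel_mono {X Y : Set α} {F G : Finset α} (hFG : F ⊆ G)
    (h1 : ∀ a, a ∉ F → (a ∈ X ↔ a ∈ Y)) (h2 : (X ∩ F).ncard = (Y ∩ F).ncard) :
    (X ∩ G).ncard = (Y ∩ G).ncard := by
  rw [ncard_split X F G hFG, ncard_split Y F G hFG, h2]
  congr 2
  ext a
  simp only [mem_inter_iff, Finset.coe_sdiff, mem_sdiff, Finset.mem_coe]
  constructor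
  · rintro ⟨h3, h4, h5⟩
    exact ⟨(h1 a h5).1 h3, h4, h5⟩
  · rintro ⟨h3, h4, h5⟩
    exact ⟨(h1 a h5).2 h3, h4, h5⟩

lemma rel_refl (X : Set α) : Rel X X := ⟨∅, fun _ _ => Iff.rfl, rfl⟩

lemma rel_symm {X Y : Set α} (h : Rel X Y) : Rel Y X := by
  obtain ⟨F, h1, h2⟩ := h
  exact ⟨F, fun a ha => (h1 a ha).symm, h2.symm⟩

lemma rel_trans {X Y Z : Set α} (h : Rel X Y) (h' : Rel Y Z) : Rel X Z := by
  obtain ⟨F, h1, h2⟩ := h
  obtain ⟨G, h3, h4⟩ := h'
  refine ⟨F ∪ G, ?_, ?_⟩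
  · intro a ha
    rw [Finset.mem_union, not_or] at ha
    exact (h1 a ha.1).trans (h3 a ha.2)
  · rw [rel_mono Finset.subset_union_left h1 h2, rel_mono Finset.subset_union_right h3 h4]

lemma rel_exchange {X : Set α} {a q : α} (ha : a ∈ X) (hq : q ∉ X) :
    Rel X (insert q (X \ {a})) := by
  have hne : a ≠ q := fun h => hq (h ▸ ha)
  refine ⟨{a, q}, ?_, ?_⟩
  · intro x hx
    simp only [Finset.mem_insert, Finset.mem_singleton, not_or] at hx
    simp [hx.1, hx.2]
  · have e1 : X ∩ (({a, q} : Finset α) : Set α) = {a} := by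
      ext x
      simp only [Finset.coe_insert, Finset.coe_singleton, mem_inter_iff, mem_insert_iff,
        mem_singleton_iff]
      constructor
      · rintro ⟨h1, h2 | h2⟩
        · exact h2
        · exact absurd (h2 ▸ h1) hq
      · rintro rfl
        exact ⟨ha, Or.inl rfl⟩
    have e2 : (insert q (X \ {a})) ∩ (({a, q} : Finset α) : Set α) = {q} := by
      ext x
      simp only [Finset.coe_insert, Finset.coe_singleton, mem_inter_iff, mem_insert_iff,
        mem_singleton_iff, mem_sdiff]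
      constructor
      · rintro ⟨h1 | h1, h2 | h2⟩
        · exact h1
        · exact h2
        · exact absurd h2 h1.2
        · exact h2
      · rintro rfl
        exact ⟨Or.inl rfl, Or.inr rfl⟩
    rw [e1, e2, Set.ncard_singleton, Set.ncard_singleton]

/-- Comparable related sets are equal. -/
lemma rel_eq_of_subset {X Y : Set α} (h : Rel X Y) (hs : X ⊆ Y) : X = Y := by
  obtain ⟨F, h1, h2⟩ := h
  have h3 : X ∩ (F : Set α) = Y ∩ F := by
    exact Set.eq_of_subset_of_ncard_le (inter_subset_inter_left _ hs) (le_of_eq h2.symm)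
      ((F.finite_toSet).inter_of_right Y)
  apply Subset.antisymm hs
  intro a ha
  by_cases haF : a ∈ F
  · have : a ∈ X ∩ (F : Set α) := by rw [h3]; exact ⟨ha, haF⟩
    exact this.1
  · exact (h1 a haF).2 ha

/-- Closed under single exchanges. -/
def ExClosed (B : Set (Set α)) : Prop :=
  ∀ X ∈ B, ∀ a ∈ X, ∀ q, q ∉ X → insert q (X \ {a}) ∈ B

/-- Comparable with a member. -/
def Comp (B : Set (Set α)) (X : Set α) : Prop := ∃ Y ∈ B, Y ⊆ X ∨ X ⊆ Y

omit [DecidableEq α] in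
lemma comp_exchange {B : Set (Set α)} (hB : ExClosed B) {X : Set α} {a q : α}
    (ha : a ∈ X) (hq : q ∉ X) (h : Comp B X) : Comp B (insert q (X \ {a})) := by
  obtain ⟨Y, hY, h1 | h1⟩ := h
  · by_cases haY : a ∈ Y
    · have hqY : q ∉ Y := fun h => hq (h1 h)
      exact ⟨insert q (Y \ {a}), hB Y hY a haY q hqY, Or.inl
        (insert_subset_insert (sdiff_subset_sdiff_left h1))⟩
    · refine ⟨Y, hY, Or.inl ?_⟩
      intro x hx
      exact Or.inr ⟨h1 hx, fun h => haY (h ▸ hx)⟩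
  · by_cases hqY : q ∈ Y
    · exact ⟨Y, hY, Or.inr (insert_subset hqY (sdiff_subset.trans h1))⟩
    · exact ⟨insert q (Y \ {a}), hB Y hY a (h1 ha) q hqY, Or.inr
        (insert_subset_insert (sdiff_subset_sdiff_left h1))⟩

lemma comp_rel_aux {B : Set (Set α)} (hB : ExClosed B) (n : ℕ) :
    ∀ X Y : Set α, ∀ F : Finset α, (∀ a, a ∉ F → (a ∈ X ↔ a ∈ Y)) →
      (X ∩ F).ncard = (Y ∩ F).ncard → (X \ Y).ncard = n → Comp B X → Comp B Y := by
  induction n with
  | zero =>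
    intro X Y F h1 h2 h3 h4
    have hfin : (X \ Y).Finite := by
      apply (F.finite_toSet).subset
      rintro a ⟨ha, ha'⟩
      by_contra h
      exact ha' ((h1 a h).1 ha)
    rw [Set.ncard_eq_zero hfin, Set.sdiff_eq_empty] at h3
    have : X = Y := rel_eq_of_subset ⟨F, h1, h2⟩ h3
    rwa [← this]
  | succ n ih =>
    intro X Y F h1 h2 h3 h4
    have hfin : (X \ Y).Finite := by
      apply (F.finite_toSet).subset
      rintro a ⟨ha, ha'⟩
      by_contra h
      exact ha' ((h1 a h).1 ha)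
    have hne : (X \ Y).Nonempty := by
      rw [← Set.ncard_pos hfin, h3]; omega
    obtain ⟨a, ha, haY⟩ := hne
    have hne2 : ¬ Y ⊆ X := by
      intro hs
      have := rel_eq_of_subset (rel_symm ⟨F, h1, h2⟩) hs
      exact haY (this ▸ ha)
    obtain ⟨q, hqY, hqX⟩ := Set.not_subset.1 hne2
    have hc := comp_exchange hB ha hqX h4
    have hr : Rel (insert q (X \ {a})) Y :=
      rel_trans (rel_symm (rel_exchange ha hqX)) ⟨F, h1, h2⟩
    obtain ⟨G, h5, h6⟩ := hr
    refine ih _ Y G h5 h6 ?_ hc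
    have : insert q (X \ {a}) \ Y = (X \ Y) \ {a} := by
      ext x
      simp only [mem_sdiff, mem_insert_iff, mem_singleton_iff]
      constructor
      · rintro ⟨h7 | h7, h8⟩
        · exact absurd (h7 ▸ hqY) h8
        · exact ⟨⟨h7.1, h8⟩, h7.2⟩
      · rintro ⟨⟨h7, h8⟩, h9⟩
        exact ⟨Or.inr ⟨h7, h9⟩, h8⟩
    rw [this, Set.ncard_sdiff_singleton_of_mem (show a ∈ X \ Y from ⟨ha, haY⟩), h3]
    rfl

lemma comp_rel {B : Set (Set α)} (hB : ExClosed B) {X Y : Set α} (h : Rel X Y)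
    (hX : Comp B X) : Comp B Y := by
  obtain ⟨F, h1, h2⟩ := h
  exact comp_rel_aux hB _ X Y F h1 h2 rfl hX

/-- Inclusion antichain. -/
def Anti (B : Set (Set α)) : Prop := ∀ X ∈ B, ∀ Y ∈ B, X ⊆ Y → X = Y

/-- Every exchange-closed antichain extends to one with which every set is comparable. -/
theorem exists_extension (B₀ : Set (Set α)) (h0 : ExClosed B₀) (h0' : Anti B₀) :
    ∃ B : Set (Set α), B₀ ⊆ B ∧ ExClosed B ∧ Anti B ∧ ∀ X, Comp B X := by
  obtain ⟨B, hB0, hmax⟩ := zorn_subset_nonempty {B : Set (Set α) | ExClosed B ∧ Anti B}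
    (by
      intro c hc hchain hne
      refine ⟨⋃₀ c, ⟨?_, ?_⟩, fun s hs => subset_sUnion_of_mem hs⟩
      · intro X hX a ha q hq
        obtain ⟨s, hs, hXs⟩ := hX
        exact ⟨s, hs, (hc hs).1 X hXs a ha q hq⟩
      · intro X hX Y hY hXY
        obtain ⟨s, hs, hXs⟩ := hX
        obtain ⟨t, ht, hYt⟩ := hY
        rcases hchain.total hs ht with h | h
        · exact (hc ht).2 X (h hXs) Y hYt hXY
        · exact (hc hs).2 X hXs Y (h hYt) hXY) B₀ ⟨h0, h0'⟩
  have hP := hmax.prop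
  refine ⟨B, hB0, hP.1, hP.2, ?_⟩
  intro X
  by_contra hX
  have hnew : B ∪ {Y | Rel X Y} ∈ {B : Set (Set α) | ExClosed B ∧ Anti B} := by
    refine ⟨?_, ?_⟩
    · rintro Y (hY | hY) a ha q hq
      · exact Or.inl (hP.1 Y hY a ha q hq)
      · exact Or.inr (rel_trans hY (rel_exchange ha hq))
    · rintro Y (hY | hY) Z (hZ | hZ) hYZ
      · exact hP.2 Y hY Z hZ hYZ
      · exact absurd (comp_rel hP.1 (rel_symm hZ) ⟨Y, hY, Or.inl hYZ⟩) hX
      · exact absurd (comp_rel hP.1 (rel_symm hY) ⟨Z, hZ, Or.inr hYZ⟩) hX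
      · exact rel_eq_of_subset (rel_trans (rel_symm hY) hZ) hYZ
  have hle : B ∪ {Y | Rel X Y} ⊆ B := hmax.le_of_ge hnew subset_union_left
  exact hX ⟨X, hle (Or.inr (rel_refl X)), Or.inl Subset.rfl⟩

end general

/-! ### The concrete family on `ℕ × Fin 3` -/

/-- The first column. -/
def J : Set (ℕ × Fin 3) := {p | p.2 = 0}
/-- The first two columns. -/
def JK : Set (ℕ × Fin 3) := {p | p.2 = 0 ∨ p.2 = 1}
/-- The first and third column. -/
def JL : Set (ℕ × Fin 3) := {p | p.2 = 0 ∨ p.2 = 2}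
/-- The transversal of the first two columns given by `Z`. -/
def T (Z : Set ℕ) : Set (ℕ × Fin 3) := {p | (p.2 = 0 ∧ p.1 ∉ Z) ∨ (p.2 = 1 ∧ p.1 ∈ Z)}

/-- The starting exchange-closed antichain. -/
def B₀ : Set (Set (ℕ × Fin 3)) := {Y | Rel JL Y} ∪ {Y | ∃ Z : Set ℕ, Z.Infinite ∧ Rel (T Z) Y}

lemma B₀_ex : ExClosed B₀ := by
  rintro Y (hY | ⟨Z, hZ, hY⟩) a ha q hq
  · exact Or.inl (rel_trans hY (rel_exchange ha hq))
  · exact Or.inr ⟨Z, hZ, rel_trans hY (rel_exchange ha hq)⟩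

lemma exists_large (S : Set ℕ) (hS : S.Infinite) (F : Finset (ℕ × Fin 3)) (i : Fin 3) :
    ∃ n ∈ S, (n, i) ∉ F := by
  by_contra h
  push Not at h
  apply hS
  have : S ⊆ ((F.image Prod.fst : Finset ℕ) : Set ℕ) := by
    intro n hn
    rw [Finset.mem_coe, Finset.mem_image]
    exact ⟨(n, i), h n hn, rfl⟩
  exact (Finset.finite_toSet _).subset this

lemma rel_T_of_agree (Z Z' : Set ℕ) (N : Finset ℕ) (h : ∀ n, n ∉ N → (n ∈ Z ↔ n ∈ Z')) :
    Rel (T Z) (T Z') := by
  classical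
  refine ⟨N ×ˢ (Finset.univ : Finset (Fin 3)), ?_, ?_⟩
  · rintro ⟨n, i⟩ ha
    have hn : n ∉ N := by
      intro hn
      apply ha
      rw [Finset.mem_product]
      exact ⟨hn, Finset.mem_univ _⟩
    simp only [T, mem_ofPred_eq, h n hn]
  · have key : ∀ W : Set ℕ, (T W ∩ ((N ×ˢ (Finset.univ : Finset (Fin 3)) : Finset (ℕ × Fin 3)) :
        Set (ℕ × Fin 3))).ncard = N.card := by
      intro W
      have : T W ∩ ((N ×ˢ (Finset.univ : Finset (Fin 3)) : Finset (ℕ × Fin 3)) :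
        Set (ℕ × Fin 3)) = (fun n : ℕ => ((n, if n ∈ W then 1 else 0) : ℕ × Fin 3)) '' N := by
        ext ⟨n, i⟩
        simp only [T, mem_inter_iff, mem_ofPred_eq, Finset.mem_coe, Finset.mem_product,
          Finset.mem_univ, and_true, mem_image, Prod.mk.injEq]
        constructor
        · rintro ⟨h1 | h1, h2⟩
          · exact ⟨n, h2, rfl, by rw [if_neg h1.2, h1.1]⟩
          · exact ⟨n, h2, rfl, by rw [if_pos h1.2, h1.1]⟩
        · rintro ⟨m, hm, rfl, hi⟩
          by_cases hmW : m ∈ W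
          · rw [if_pos hmW] at hi
            exact ⟨Or.inr ⟨hi.symm, hmW⟩, hm⟩
          · rw [if_neg hmW] at hi
            exact ⟨Or.inl ⟨hi.symm, hmW⟩, hm⟩
      rw [this, Set.ncard_image_of_injective _ (fun a b hab => (Prod.mk.inj hab).1),
        Set.ncard_coe_finset]
    rw [key, key]

lemma B₀_anti : Anti B₀ := by
  classical
  rintro Y (hY | ⟨Z, hZ, hY⟩) Y' (hY' | ⟨Z', hZ', hY'⟩) hs
  · exact rel_eq_of_subset (rel_trans (rel_symm hY) hY') hs
  · exfalso
    obtain ⟨F, h1, _⟩ := hY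
    obtain ⟨G, h2, _⟩ := hY'
    obtain ⟨n, _, hn⟩ := exists_large univ infinite_univ (F ∪ G) 2
    rw [Finset.mem_union, not_or] at hn
    have h3 : (n, (2 : Fin 3)) ∈ Y := (h1 _ hn.1).1 (Or.inr rfl)
    have h4 := (h2 _ hn.2).2 (hs h3)
    rcases h4 with h4 | h4
    · exact absurd h4.1 (show ¬ ((2 : Fin 3) = 0) by decide)
    · exact absurd h4.1 (show ¬ ((2 : Fin 3) = 1) by decide)
  · exfalso
    obtain ⟨F, h1, _⟩ := hY
    obtain ⟨G, h2, _⟩ := hY'
    obtain ⟨n, hnZ, hn⟩ := exists_large Z hZ (F ∪ G) 1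
    rw [Finset.mem_union, not_or] at hn
    have h3 : (n, (1 : Fin 3)) ∈ Y := (h1 _ hn.1).1 (Or.inr ⟨rfl, hnZ⟩)
    have h4 := (h2 _ hn.2).2 (hs h3)
    rcases h4 with h4 | h4
    · exact absurd h4 (show ¬ ((1 : Fin 3) = 0) by decide)
    · exact absurd h4 (show ¬ ((1 : Fin 3) = 2) by decide)
  · have hZZ : Rel (T Z) (T Z') := by
      obtain ⟨F, h1, _⟩ := hY
      obtain ⟨G, h2, _⟩ := hY'
      apply rel_T_of_agree Z Z' ((F ∪ G).image Prod.fst)
      intro n hn
      have hF : ∀ i : Fin 3, (n, i) ∉ F := by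
        intro i hi
        apply hn
        rw [Finset.mem_image]
        exact ⟨(n, i), Finset.mem_union_left _ hi, rfl⟩
      have hG : ∀ i : Fin 3, (n, i) ∉ G := by
        intro i hi
        apply hn
        rw [Finset.mem_image]
        exact ⟨(n, i), Finset.mem_union_right _ hi, rfl⟩
      constructor
      · intro hnZ
        have h3 : (n, (1 : Fin 3)) ∈ Y := (h1 _ (hF 1)).1 (Or.inr ⟨rfl, hnZ⟩)
        have h4 := (h2 _ (hG 1)).2 (hs h3)
        rcases h4 with h4 | h4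
        · exact absurd h4.1 (show ¬ ((1 : Fin 3) = 0) by decide)
        · exact h4.2
      · intro hnZ'
        by_contra hnZ
        have h3 : (n, (0 : Fin 3)) ∈ Y := (h1 _ (hF 0)).1 (Or.inl ⟨rfl, hnZ⟩)
        have h4 := (h2 _ (hG 0)).2 (hs h3)
        rcases h4 with h4 | h4
        · exact h4.2 hnZ'
        · exact absurd h4.1 (show ¬ ((0 : Fin 3) = 1) by decide)
    exact rel_eq_of_subset (rel_trans (rel_symm hY) (rel_trans hZZ hY')) hs

/-- For every `W` between `J` and `JK` some member of `B₀` is strictly comparable with `W`. -/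
lemma B₀_strict (W : Set (ℕ × Fin 3)) (h1 : J ⊆ W) (h2 : W ⊆ JK) :
    ∃ Y ∈ B₀, (Y ⊆ W ∨ W ⊆ Y) ∧ Y ≠ W := by
  classical
  set Z : Set ℕ := {n | (n, (1 : Fin 3)) ∈ W} with hZdef
  by_cases hZ : Z.Finite
  · -- the finite case: compare with a set related to `JL`
    set Y : Set (ℕ × Fin 3) := {p | p.2 = 0 ∨ (p.2 = 1 ∧ p.1 ∈ Z) ∨ (p.2 = 2 ∧ p.1 ∉ Z)} with hYdef
    have hWY : W ⊆ Y := by
      rintro ⟨n, i⟩ hp
      rcases h2 hp with h | h
      · exact Or.inl h
      · refine Or.inr (Or.inl ⟨h, ?_⟩)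
        have h' : i = 1 := h
        subst h'
        exact hp
    have hrel : Rel JL Y := by
      refine ⟨hZ.toFinset ×ˢ (Finset.univ : Finset (Fin 3)), ?_, ?_⟩
      · rintro ⟨n, i⟩ ha
        have hn : n ∉ Z := by
          intro hn
          apply ha
          rw [Finset.mem_product]
          exact ⟨hZ.mem_toFinset.2 hn, Finset.mem_univ _⟩
        simp only [JL, hYdef, mem_ofPred_eq, hn, and_false, false_or, not_false_eq_true, and_true]
      · have e : JL ∩ ((hZ.toFinset ×ˢ (Finset.univ : Finset (Fin 3)) : Finset (ℕ × Fin 3)) :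
            Set (ℕ × Fin 3)) = (fun p : ℕ × Fin 3 => (p.1, Equiv.swap (1 : Fin 3) 2 p.2)) ''
            (Y ∩ ((hZ.toFinset ×ˢ (Finset.univ : Finset (Fin 3)) : Finset (ℕ × Fin 3)) :
            Set (ℕ × Fin 3))) := by
          ext ⟨n, i⟩
          simp only [JL, hYdef, mem_inter_iff, mem_ofPred_eq, Finset.mem_coe, Finset.mem_product,
            Finset.mem_univ, and_true, mem_image, Prod.mk.injEq, hZ.mem_toFinset, Prod.exists]
          constructor
          · rintro ⟨h3 | h3, h4⟩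
            · refine ⟨n, 0, ⟨Or.inl rfl, h4⟩, rfl, ?_⟩
              rw [h3]; decide
            · refine ⟨n, 1, ⟨Or.inr (Or.inl ⟨rfl, h4⟩), h4⟩, rfl, ?_⟩
              rw [h3]; decide
          · rintro ⟨m, j, ⟨h3, h4⟩, rfl, h5⟩
            refine ⟨?_, h4⟩
            rcases h3 with h3 | h3 | h3
            · left; rw [← h5, h3]; decide
            · right; rw [← h5, h3.1]; decide
            · exact absurd h4 h3.2
        rw [e, Set.ncard_image_of_injective]
        rintro ⟨a, i⟩ ⟨b, j⟩ hab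
        simp only [Prod.mk.injEq, EmbeddingLike.apply_eq_iff_eq] at hab
        rw [hab.1, hab.2]
    refine ⟨Y, Or.inl hrel, Or.inr hWY, ?_⟩
    intro heq
    obtain ⟨n, _, hn⟩ := exists_large (Zᶜ) hZ.infinite_compl ∅ 2
    · have : (n, (2 : Fin 3)) ∈ Y := by
        right; right
        refine ⟨rfl, ?_⟩
        assumption
      rw [heq] at this
      rcases h2 this with h | h
      · exact absurd h (show ¬ ((2 : Fin 3) = 0) by decide)
      · exact absurd h (show ¬ ((2 : Fin 3) = 1) by decide)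
  · refine ⟨T Z, Or.inr ⟨Z, hZ, rel_refl _⟩, Or.inl ?_, ?_⟩
    · rintro ⟨n, i⟩ (h | h)
      · exact h1 h.1
      · have h' : i = 1 := h.1
        subst h'
        exact h.2
    · intro heq
      have hne : Z.Nonempty := by
        by_contra hc
        rw [Set.not_nonempty_iff_eq_empty] at hc
        exact hZ (hc ▸ Set.finite_empty)
      obtain ⟨n, hn⟩ := hne
      have h3 : (n, (0 : Fin 3)) ∈ W := h1 rfl
      rw [← heq] at h3
      rcases h3 with h3 | h3
      · exact h3.2 hn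
      · exact absurd h3.1 (show ¬ ((0 : Fin 3) = 1) by decide)

/-- The family behind the counterexample. -/
theorem exists_family : ∃ B : Set (Set (ℕ × Fin 3)),
    (∀ X ∈ B, ∀ a ∈ X, ∀ q, q ∉ X → insert q (X \ {a}) ∈ B) ∧
    (∀ X ∈ B, ∀ Y ∈ B, X ⊆ Y → X = Y) ∧
    (∀ X, ∃ Y ∈ B, Y ⊆ X ∨ X ⊆ Y) ∧
    JL ∈ B ∧ (∀ Z : Set ℕ, Z.Infinite → T Z ∈ B) ∧
    (∀ W, J ⊆ W → W ⊆ JK → W ∉ B) := by
  obtain ⟨B, h0, hex, hanti, hcomp⟩ := exists_extension B₀ B₀_ex B₀_anti
  refine ⟨B, hex, hanti, hcomp, h0 (Or.inl (rel_refl _)),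
    fun Z hZ => h0 (Or.inr ⟨Z, hZ, rel_refl _⟩), ?_⟩
  intro W h1 h2 hW
  obtain ⟨Y, hY, h3, h4⟩ := B₀_strict W h1 h2
  rcases h3 with h3 | h3
  · exact h4 (hanti Y (h0 hY) W hW h3)
  · exact h4 (hanti W hW Y (h0 hY) h3).symm

end Pool.Agent.Helper920.Family
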