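import Mathlib
import Pool.Agent.Helper920.Family

set_option autoImplicit false

namespace Pool.Agent.Helper920.Op

open Set

variable {α : Type}

/-- The operator attached to a family `B`: a set is closed unless it contains a member of `B`,
in which case its closure is everything. -/
def op (B : Set (Set α)) (A : Set α) : Set α := {x | x ∈ A ∨ ∃ Y ∈ B, Y ⊆ A}

/-- Closed under single exchanges. -/
def Ex (B : Set (Set α)) : Prop := ∀ X ∈ B, ∀ a ∈ X, ∀ q, q ∉ X → insert q (X \ {a}) ∈ B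
/-- Antichain. -/
def An (B : Set (Set α)) : Prop := ∀ X ∈ B, ∀ Y ∈ B, X ⊆ Y → X = Y
/-- Every set is comparable with a member. -/
def Co (B : Set (Set α)) : Prop := ∀ X, ∃ Y ∈ B, Y ⊆ X ∨ X ⊆ Y

variable {B : Set (Set α)}

lemma op_top {A : Set α} (hA : ∃ Y ∈ B, Y ⊆ A) : op B A = univ := by
  ext x
  exact ⟨fun _ => trivial, fun _ => Or.inr hA⟩

lemma op_id {A : Set α} (hA : ¬ ∃ Y ∈ B, Y ⊆ A) : op B A = A := by
  ext x
  exact ⟨fun h => h.resolve_right hA, fun h => Or.inl h⟩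

lemma op_ext (A : Set α) : A ⊆ op B A := fun _ hx => Or.inl hx

lemma op_mono {A A' : Set α} (h : A ⊆ A') : op B A ⊆ op B A' := by
  rintro x (hx | ⟨Y, hY, hYA⟩)
  · exact Or.inl (h hx)
  · exact Or.inr ⟨Y, hY, hYA.trans h⟩

lemma op_idem (A : Set α) : op B (op B A) = op B A := by
  by_cases hX : ∃ Y ∈ B, Y ⊆ A
  · rw [op_top hX]
    exact Subset.antisymm (subset_univ _) (op_ext _)
  · rw [op_id hX, op_id hX]

lemma up_ex (hex : Ex B) {A : Set α} (hA : ∃ Y ∈ B, Y ⊆ A) (a q : α) (hq : q ∉ A) :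
    ∃ Y ∈ B, Y ⊆ insert q (A \ {a}) := by
  obtain ⟨Y, hY, hYA⟩ := hA
  by_cases ha : a ∈ Y
  · exact ⟨_, hex Y hY a ha q (fun h => hq (hYA h)),
      insert_subset_insert (sdiff_subset_sdiff_left hYA)⟩
  · exact ⟨Y, hY, fun x hx => Or.inr ⟨hYA hx, fun h => ha (h ▸ hx)⟩⟩

lemma proper (hanti : An B) {Y : Set α} (hY : Y ∈ B) {A : Set α} (hAY : A ⊆ Y) (hne : A ≠ Y) :
    ¬ ∃ Y' ∈ B, Y' ⊆ A := by
  rintro ⟨Y', hY', hY'A⟩
  have := hanti Y' hY' Y hY (hY'A.trans hAY)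
  exact hne (Subset.antisymm hAY (this ▸ hY'A))

lemma proper_sdiff (hanti : An B) {Y : Set α} (hY : Y ∈ B) {x : α} (hx : x ∈ Y) :
    ¬ ∃ Y' ∈ B, Y' ⊆ Y \ {x} :=
  proper hanti hY sdiff_subset (fun h' => by
    have h2 : x ∈ Y \ {x} := by rw [h']; exact hx
    exact h2.2 rfl)

/-- The exchange axiom (cl4'). -/
lemma op_exchange (hex : Ex B) (A C : Set α) (q : α) (h1 : q ∈ op B C) (h2 : q ∉ op B (C \ A)) :
    ∃ a ∈ A, a ∈ op B (insert q (C \ {a})) := by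
  by_cases hqC : q ∈ C
  · have hqA : q ∈ A := by
      by_contra h
      exact h2 (Or.inl ⟨hqC, h⟩)
    exact ⟨q, hqA, Or.inl (mem_insert _ _)⟩
  · have hC := h1.resolve_left hqC
    have hne : (A ∩ C).Nonempty := by
      by_contra h
      apply h2
      right
      obtain ⟨Y, hY, hYC⟩ := hC
      refine ⟨Y, hY, fun x hx => ⟨hYC hx, fun hxA => h ⟨x, hxA, hYC hx⟩⟩⟩
    obtain ⟨a, haA, haC⟩ := hne
    exact ⟨a, haA, Or.inr (up_ex hex hC a q hqC)⟩

/-- Condition (C). -/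
lemma op_C (hanti : An B) (h0 : ∅ ∉ B) (Y : Set α) (p : α) (hp : p ∈ op B Y) :
    ∃ U : Set α, Minimal (fun W : Set α => W ⊆ Y ∧ p ∈ op B W) U ∧
      ∀ x ∈ U, x ∉ op B (U \ {x}) := by
  have empty_not : ¬ ∃ Y ∈ B, Y ⊆ (∅ : Set α) := by
    rintro ⟨Y, hY, h⟩
    rw [subset_empty_iff] at h
    exact h0 (h ▸ hY)
  by_cases hpY : p ∈ Y
  · refine ⟨{p}, ⟨⟨singleton_subset_iff.2 hpY, op_ext _ rfl⟩, ?_⟩, ?_⟩
    · intro W hW hWp
      rcases subset_singleton_iff_eq.1 hWp with h | h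
      · exfalso
        have h2 := hW.2
        rw [h, op_id empty_not] at h2
        exact h2
      · rw [h]
    · intro x hx
      rw [mem_singleton_iff] at hx
      subst hx
      have : ({x} : Set α) \ {x} = ∅ := by
        ext y; simp
      rw [this, op_id empty_not]
      exact fun h => h
  · obtain ⟨U, hU, hUY⟩ := hp.resolve_left hpY
    refine ⟨U, ⟨⟨hUY, Or.inr ⟨U, hU, Subset.rfl⟩⟩, ?_⟩, ?_⟩
    · intro W hW hWU
      rcases hW.2 with h | ⟨U', hU', hU'W⟩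
      · exact absurd (hUY (hWU h)) hpY
      · have h' : U' = U := hanti U' hU' U hU (hU'W.trans hWU)
        exact h' ▸ hU'W
    · intro x hx h
      rw [op_id (proper_sdiff hanti hU hx)] at h
      exact h.2 rfl

/-- Condition (H). -/
lemma op_H (hex : Ex B) (hanti : An B) (hcomp : Co B) (Y : Set α) (p : α) (hp : p ∉ op B Y) :
    ∃ V : Set α, Maximal (fun W : Set α => Y ⊆ W ∧ p ∉ op B W) V ∧ op B (insert p V) = univ := by
  have hY : ¬ ∃ Y' ∈ B, Y' ⊆ Y := fun h => hp (Or.inr h)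
  have hpY : p ∉ Y := fun h => hp (Or.inl h)
  have key : ∃ U ∈ B, Y ⊆ U ∧ p ∈ U := by
    obtain ⟨U, hU, h | h⟩ := hcomp Y
    · exact absurd ⟨U, hU, h⟩ hY
    · by_cases hpU : p ∈ U
      · exact ⟨U, hU, h, hpU⟩
      · have : ¬ U ⊆ Y := fun h' => hY ⟨U, hU, h'⟩
        obtain ⟨u, huU, huY⟩ := not_subset.1 this
        refine ⟨_, hex U hU u huU p hpU, ?_, mem_insert _ _⟩
        intro x hx
        exact Or.inr ⟨h hx, fun h' => huY (h' ▸ hx)⟩
  obtain ⟨U, hU, hYU, hpU⟩ := key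
  refine ⟨U \ {p}, ⟨⟨?_, ?_⟩, ?_⟩, ?_⟩
  · intro x hx
    exact ⟨hYU hx, fun h => hpY (h ▸ hx)⟩
  · rw [op_id (proper_sdiff hanti hU hpU)]
    exact fun h => h.2 rfl
  · intro W hW hle x hx
    by_contra hxU
    have hpW : p ∉ W := fun h => hW.2 (Or.inl h)
    have hxp : x ≠ p := fun h => hpW (h ▸ hx)
    have hxU' : x ∉ U := fun h => hxU ⟨h, hxp⟩
    apply hW.2
    right
    exact ⟨_, hex U hU p hpU x hxU', insert_subset hx hle⟩
  · apply op_top
    refine ⟨U, hU, ?_⟩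
    intro x hx
    by_cases hxp : x = p
    · exact Or.inl hxp
    · exact Or.inr ⟨hx, hxp⟩

end Pool.Agent.Helper920.Op
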