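import Mathlib

set_option autoImplicit false

namespace Pool.Agent.Helper920.Wild

open Set Matroid

variable {α : Type}

/-- The truncation of a matroid in which the empty set is not a base: independent sets are the
independent sets that are not bases. -/
def truncInd (M : Matroid α) (h0 : ¬ M.IsBase ∅) : IndepMatroid α where
  E := M.E
  Indep I := M.Indep I ∧ ¬ M.IsBase I
  indep_empty := ⟨M.empty_indep, h0⟩
  indep_subset := by
    rintro I J ⟨hJ, hJb⟩ hIJ
    refine ⟨hJ.subset hIJ, fun hI => hJb ?_⟩
    rwa [← hI.eq_of_subset_indep hJ hIJ]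
  indep_aug := by
    rintro I B ⟨hI, hIb⟩ hImax hB
    have hsub : ∀ ⦃I J : Set α⦄, (M.Indep J ∧ ¬ M.IsBase J) → I ⊆ J →
        (M.Indep I ∧ ¬ M.IsBase I) := by
      rintro I J ⟨hJ, hJb⟩ hIJ
      refine ⟨hJ.subset hIJ, fun hI => hJb ?_⟩
      rwa [← hI.eq_of_subset_indep hJ hIJ]
    obtain ⟨y, hyI, hy1, hy2⟩ := exists_insert_of_not_maximal hsub ⟨hI, hIb⟩ hImax
    obtain ⟨D, hD⟩ := M.exists_isBase
    -- no `I + x` is a base
    have hno : ∀ x, x ∉ I → ¬ M.IsBase (insert x I) := by
      intro x hx hbase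
      by_cases hxy : x = y
      · exact hy2 (hxy ▸ hbase)
      · apply hy2
        have h1 : insert x I \ {x} = I := by
          ext z
          simp only [mem_sdiff, mem_insert_iff, mem_singleton_iff]
          constructor
          · rintro ⟨h1 | h1, h2⟩
            · exact absurd h1 h2
            · exact h1
          · intro h
            exact ⟨Or.inr h, fun h' => hx (h' ▸ h)⟩
        have := hbase.exchange_isBase_of_indep (f := y) (e := x)
          (by
            rintro (h | h)
            · exact hxy h.symm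
            · exact hyI h) (by rwa [h1])
        rwa [h1] at this
    obtain ⟨e, ⟨heD, heB⟩, hins⟩ := hB.prop.1.exists_insert_of_not_isBase hB.prop.2 hD
    have hBe : M.IsBase (insert e B) := by
      by_contra hc
      exact heB (hB.2 ⟨hins, hc⟩ (subset_insert _ _) (mem_insert _ _))
    by_contra hcon
    push Not at hcon
    have hcl : B ⊆ M.closure I := by
      intro x hx
      by_cases hxI : x ∈ I
      · exact M.mem_closure_of_mem hxI hI.subset_ground
      · by_contra hxcl
        have hxE : x ∈ M.E := hB.prop.1.subset_ground hx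
        have := (hI.notMem_closure_iff_of_notMem hxI hxE).1 hxcl
        exact hno x hxI (hcon x ⟨hx, hxI⟩ this)
    have heE : e ∈ M.E := hins.subset_ground (mem_insert _ _)
    have hsp : M.E ⊆ M.closure (insert e I) := by
      rw [← hBe.closure_eq]
      apply M.closure_subset_closure_of_subset_closure
      apply insert_subset
      · exact M.mem_closure_of_mem (mem_insert _ _) (insert_subset heE hI.subset_ground)
      · exact hcl.trans (M.closure_subset_closure (subset_insert _ _))
    by_cases hecl : e ∈ M.closure I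
    · have h2 : M.closure (insert e I) = M.closure I := closure_insert_eq_of_mem_closure hecl
      rw [h2] at hsp
      exact hIb (hI.isBase_of_ground_subset_closure hsp)
    · have heI : e ∉ I := fun h => hecl (M.mem_closure_of_mem h hI.subset_ground)
      have h3 := (hI.notMem_closure_iff_of_notMem heI heE).1 hecl
      exact hno e heI (h3.isBase_of_ground_subset_closure hsp)
  indep_maximal := by
    rintro X hX I ⟨hI, hIb⟩ hIX
    obtain ⟨J, hJ, hIJ⟩ := hI.subset_isBasis_of_subset hIX
    by_cases hJb : M.IsBase J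
    · have hne : ¬ J ⊆ I := fun h => hIb ((Subset.antisymm hIJ h) ▸ hJb)
      obtain ⟨e, heJ, heI⟩ := not_subset.1 hne
      refine ⟨J \ {e}, fun x hx => ⟨hIJ hx, fun h => heI (h ▸ hx)⟩, ?_⟩
      refine ⟨⟨⟨hJ.indep.subset sdiff_subset, ?_⟩, sdiff_subset.trans hJ.subset⟩, ?_⟩
      · intro h
        have h1 := h.eq_of_subset_indep hJ.indep sdiff_subset
        have h2 : e ∈ J \ {e} := h1.symm ▸ heJ
        exact h2.2 rfl
      · rintro K ⟨⟨hK, hKb⟩, hKX⟩ hJK x hx
        by_contra hxJ
        by_cases hxe : x = e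
        · subst hxe
          apply hKb
          have h1 : J ⊆ K := by
            intro z hz
            by_cases hzx : z = x
            · exact hzx ▸ hx
            · exact hJK ⟨hz, hzx⟩
          rwa [← hJb.eq_of_subset_indep hK h1]
        · have hxJ' : x ∉ J := fun h => hxJ ⟨h, hxe⟩
          have h1 : insert x (J \ {e}) ⊆ K := insert_subset hx hJK
          have h2 := hJb.exchange_isBase_of_indep hxJ' (hK.subset h1)
          apply hKb
          rwa [← h2.eq_of_subset_indep hK h1]
    · refine ⟨J, hIJ, ⟨⟨hJ.indep, hJb⟩, hJ.subset⟩, ?_⟩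
      rintro K ⟨⟨hK, _⟩, hKX⟩ hJK
      exact (hJ.eq_of_subset_indep hK hJK hKX).symm.subset
  subset_ground := fun I hI => hI.1.subset_ground

/-- The truncation as a matroid. -/
def trunc (M : Matroid α) (h0 : ¬ M.IsBase ∅) : Matroid α := (truncInd M h0).matroid

lemma trunc_ground (M : Matroid α) (h0 : ¬ M.IsBase ∅) : (trunc M h0).E = M.E := rfl

lemma trunc_indep (M : Matroid α) (h0 : ¬ M.IsBase ∅) (I : Set α) :
    (trunc M h0).Indep I ↔ M.Indep I ∧ ¬ M.IsBase I := Iff.rfl

/-- A base minus a point is a base of the truncation. -/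
lemma trunc_isBase_sdiff (M : Matroid α) (h0 : ¬ M.IsBase ∅) {B : Set α} (hB : M.IsBase B)
    {e : α} (he : e ∈ B) : (trunc M h0).IsBase (B \ {e}) := by
  rw [isBase_iff_maximal_indep]
  refine ⟨⟨hB.indep.subset sdiff_subset, ?_⟩, ?_⟩
  · intro h
    have h1 := h.eq_of_subset_indep hB.indep sdiff_subset
    have h2 : e ∈ B \ {e} := h1.symm ▸ he
    exact h2.2 rfl
  · rintro K ⟨hK, hKb⟩ hJK x hx
    by_contra hxJ
    by_cases hxe : x = e
    · subst hxe
      apply hKb
      have h1 : B ⊆ K := by
        intro z hz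
        by_cases hzx : z = x
        · exact hzx ▸ hx
        · exact hJK ⟨hz, hzx⟩
      rwa [← hB.eq_of_subset_indep hK h1]
    · have hxJ' : x ∉ B := fun h => hxJ ⟨h, hxe⟩
      have h1 : insert x (B \ {e}) ⊆ K := insert_subset hx hJK
      have h2 := hB.exchange_isBase_of_indep hxJ' (hK.subset h1)
      apply hKb
      rwa [← h2.eq_of_subset_indep hK h1]

/-- Every base of the truncation is a base minus a point. -/
lemma trunc_isBase_exists (M : Matroid α) (h0 : ¬ M.IsBase ∅) {D : Set α}
    (hD : (trunc M h0).IsBase D) : ∃ B, M.IsBase B ∧ ∃ e ∈ B, D = B \ {e} := by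
  have h1 : M.Indep D ∧ ¬ M.IsBase D := hD.indep
  obtain ⟨B, hB, hDB⟩ := h1.1.exists_isBase_superset
  have hne : ¬ B ⊆ D := fun h => h1.2 ((Subset.antisymm hDB h) ▸ hB)
  obtain ⟨e, heB, heD⟩ := not_subset.1 hne
  refine ⟨B, hB, e, heB, ?_⟩
  apply hD.eq_of_subset_isBase (trunc_isBase_sdiff M h0 hB heB)
  exact fun x hx => ⟨hDB hx, fun h => heD (h ▸ hx)⟩

/-- Every base is a circuit of the truncation. -/
lemma trunc_isCircuit_of_isBase (M : Matroid α) (h0 : ¬ M.IsBase ∅) {B : Set α}
    (hB : M.IsBase B) : (trunc M h0).IsCircuit B := by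
  rw [isCircuit_iff_dep_forall_sdiff_singleton_indep]
  refine ⟨⟨fun h => h.2 hB, hB.subset_ground⟩, ?_⟩
  intro e he
  exact (trunc_isBase_sdiff M h0 hB he).indep


/-- For matroids with infinite ground type there is a matroid with a circuit and a cocircuit
meeting in an infinite set. -/
theorem exists_wild (α : Type) [Infinite α] :
    ∃ M : Matroid α, ∃ C K : Set α, M.IsCircuit C ∧ M.IsCocircuit K ∧ (C ∩ K).Infinite := by
  classical
  have hcard : Nonempty (ℕ × Bool ↪ α) := by
    have f : ℕ ↪ α := Infinite.natEmbedding α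
    obtain ⟨e⟩ : Nonempty (ℕ × Bool ≃ ℕ) := nonempty_equiv_of_countable
    exact ⟨e.toEmbedding.trans f⟩
  obtain ⟨g⟩ := hcard
  -- the class of a point
  set h : α → ℕ := fun x => if hx : ∃ p : ℕ × Bool, g p = x then hx.choose.1 else 0 with hh
  have hg : ∀ n b, h (g (n, b)) = n := by
    intro n b
    have hx : ∃ p : ℕ × Bool, g p = g (n, b) := ⟨_, rfl⟩
    have h1 : hx.choose = (n, b) := g.injective hx.choose_spec
    simp only [hh, dif_pos hx, h1]
  set E : Set α := range g with hE
  set N : Matroid α := (freeOn (univ : Set ℕ)).comapOn E h with hN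
  have Nind : ∀ I, N.Indep I ↔ InjOn h I ∧ I ⊆ E := by
    intro I
    rw [hN, comapOn_indep_iff]
    simp
  have NE : N.E = E := rfl
  set T : Set α := range (fun n => g (n, true)) with hT
  have gE : ∀ p, g p ∈ E := fun p => ⟨p, rfl⟩
  have Tbase' : ∀ c : Bool, N.IsBase (range (fun n => g (n, c))) := by
    intro c
    rw [isBase_iff_maximal_indep]
    refine ⟨(Nind _).2 ⟨?_, ?_⟩, ?_⟩
    · rintro _ ⟨n, rfl⟩ _ ⟨m, rfl⟩ hnm
      simp only [hg] at hnm
      rw [hnm]
    · rintro _ ⟨n, rfl⟩
      exact gE _
    · intro K hK hTK x hx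
      obtain ⟨hK1, hK2⟩ := (Nind K).1 hK
      obtain ⟨⟨n, b⟩, rfl⟩ := hK2 hx
      have h1 : g (n, c) ∈ K := hTK ⟨n, rfl⟩
      have h2 : g (n, b) = g (n, c) := hK1 hx h1 (by rw [hg, hg])
      rw [h2]
      exact ⟨n, rfl⟩
  have Tbase : N.IsBase T := Tbase' true
  set T0 : Set α := range (fun n => g (n, false)) with hT0
  have hTn : ∀ n, g (n, true) ∈ T := fun n => ⟨n, rfl⟩
  have hTf : ∀ n, g (n, false) ∉ T := by
    rintro n ⟨m, hm⟩
    have := g.injective hm
    simp at this
  have h0 : ¬ N.IsBase ∅ := by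
    intro hc
    have h1 := hc.eq_of_subset_isBase Tbase (empty_subset _)
    have h2 : g (0, true) ∈ T := hTn 0
    rw [← h1] at h2
    exact h2
  set P1 : Matroid α := trunc N h0 with hP1
  have P1E : P1.E = E := rfl
  have P1base : ∀ n, P1.IsBase (T \ {g (n, true)}) := fun n =>
    trunc_isBase_sdiff N h0 Tbase (hTn n)
  have h0' : ¬ P1✶.IsBase ∅ := by
    intro hc
    have h1 : P1.IsBase (P1.E \ ∅) := by
      rw [← dual_dual P1, dual_isBase_iff (by simp)]
      simpa using hc
    have h2 := (P1base 0).eq_of_subset_isBase h1 (by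
      rw [sdiff_empty]
      exact (P1base 0).subset_ground)
    have h3 : g (0, false) ∈ T \ {g (0, true)} := by
      rw [h2]
      exact ⟨gE _, fun h => h⟩
    exact hTf 0 h3.1
  set M : Matroid α := trunc P1✶ h0' with hM
  have Pbase : ∀ n, P1✶.IsBase (E \ (T \ {g (n, true)})) := by
    intro n
    exact (P1base n).compl_isBase_dual
  have Pbase0 : P1✶.IsBase (E \ (T0 \ {g (0, false)})) :=
    (trunc_isBase_sdiff N h0 (Tbase' false) ⟨0, rfl⟩).compl_isBase_dual
  refine ⟨M, E \ (T0 \ {g (0, false)}), insert (g (1, false)) T, ?_, ?_, ?_⟩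
  · exact trunc_isCircuit_of_isBase _ _ Pbase0
  · -- the cocircuit
    have hsub : insert (g (1, false)) T ⊆ M.E := by
      apply insert_subset (gE _)
      rintro _ ⟨n, rfl⟩
      exact gE _
    rw [isCocircuit_def, isCircuit_iff_dep_forall_sdiff_singleton_indep]
    constructor
    · refine ⟨?_, hsub⟩
      intro hind
      obtain ⟨_, D, hD, hdisj⟩ := dual_indep_iff_exists'.1 hind
      obtain ⟨D1, hD1, z, hz, rfl⟩ := trunc_isBase_exists _ _ hD
      have hD2 : P1.IsBase (P1.E \ D1) := hD1.compl_isBase_of_dual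
      obtain ⟨T', hT', e, he, heq⟩ := trunc_isBase_exists _ _ hD2
      -- everything of `insert _ T` except `z` lies in `T' \ {e}`
      have key : ∀ x ∈ insert (g (1, false)) T, x ≠ z → x ∈ T' \ {e} := by
        intro x hx hxz
        rw [← heq]
        refine ⟨hsub hx, fun hxD => ?_⟩
        exact (disjoint_left.1 hdisj) hx ⟨hxD, hxz⟩
      obtain ⟨hinj, hT'E⟩ := (Nind T').1 hT'.indep
      have hne : g (1, false) ≠ g (1, true) := by
        intro hc
        have := g.injective hc
        simp at this
      -- every class is represented in `T' \ {e}`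
      have key2 : ∀ n, ∃ x ∈ T' \ {e}, h x = n := by
        intro n
        by_cases hn : g (n, true) = z
        · by_cases hn1 : n = 1
          · subst hn1
            refine ⟨g (1, false), key _ (mem_insert _ _) ?_, hg _ _⟩
            rw [← hn]; exact hne
          · exfalso
            have h1 := key (g (1, false)) (mem_insert _ _) (by
              rw [← hn]
              intro hc
              exact hTf 1 ⟨n, hc.symm⟩)
            have h2 := key (g (1, true)) (mem_insert_of_mem _ (hTn 1)) (by
              rw [← hn]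
              intro hc
              have := g.injective hc
              simp only [Prod.mk.injEq, and_true] at this
              exact hn1 this.symm)
            exact hne (hinj h1.1 h2.1 (by rw [hg, hg]))
        · exact ⟨g (n, true), key _ (mem_insert_of_mem _ (hTn n)) hn, hg _ _⟩
      obtain ⟨x, hx, hxe⟩ := key2 (h e)
      exact hx.2 (hinj hx.1 he hxe)
    · intro x hx
      apply dual_indep_iff_exists'.2
      refine ⟨sdiff_subset.trans hsub, ?_⟩
      rcases hx with hx | hx
      · refine ⟨(E \ (T \ {g (0, true)})) \ {g (0, true)},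
          trunc_isBase_sdiff _ _ (Pbase 0) ⟨gE _, fun h' => h'.2 rfl⟩, ?_⟩
        rw [disjoint_left]
        rintro y ⟨hy1, hy2⟩ ⟨⟨_, hy3⟩, hy4⟩
        rcases hy1 with hy1 | hy1
        · exact hy2 (hy1.trans hx.symm)
        · exact hy3 ⟨hy1, hy4⟩
      · obtain ⟨m, rfl⟩ := hx
        refine ⟨(E \ (T \ {g (m, true)})) \ {g (1, false)},
          trunc_isBase_sdiff _ _ (Pbase m) ⟨gE _, fun h' => hTf 1 h'.1⟩, ?_⟩
        rw [disjoint_left]
        rintro y ⟨hy1, hy2⟩ ⟨⟨_, hy3⟩, hy4⟩
        rcases hy1 with hy1 | hy1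
        · exact hy4 hy1
        · exact hy3 ⟨hy1, hy2⟩
  · -- the intersection is infinite
    have hinf : T.Infinite := infinite_range_of_injective (fun n m hnm => by
      have := g.injective hnm
      simpa using this)
    apply hinf.mono
    rintro _ ⟨n, rfl⟩
    refine ⟨⟨gE _, ?_⟩, mem_insert_of_mem _ (hTn n)⟩
    rintro ⟨⟨m, hm⟩, _⟩
    have := g.injective hm
    simp at this

end Pool.Agent.Helper920.Wild
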